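import Pool.Agent.NH4.AG.Fin

/-!
# Every number field in a large class of quadratic towers over `ℚ(i)`, and infinitely many curves over
each: the rank conjecture over a whole infinite tower that contains the given field

`Ω` is the subfield of `ℂ` generated by `i` and by the square roots of ALL the primary Gaussian primes whose
norm is a prime number (all the Gaussian primes of degree one, up to units). For every prime number
`p ≡ 1` modulo `4` the field `Ω` contains `√p` and, for `p = a² + b²` with `a ≡ 1 + b` modulo `4`, `b` even, the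
roots of `x⁴ - 4 a x² - 4 b²`, a polynomial with the real root `√(2 a + 2 √p)` and dihedral Galois group.

We prove: for EVERY number field `F₀` in `Ω` there are an infinite set `R` of these primes, stable under the
complex conjugation, with `F₀ ⊆ Ω(R) = ℚ(i)(√l : l ∈ R)`, and infinitely many squarefree `D`, products of
primes `≡ 1` modulo `4`, such that the curve `E_D : y² = x³ + D² x` satisfies the rank conjecture over EVERY
number field `F` in `Ω(R)`, in particular over `F₀`: `E_D(F)` is finite and the `L`-function of `E_D` over `F`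
is entire and not zero at `1`.

The proof. Let `S` be a finite set of the primes, stable under the conjugation, with `F₀ ⊆ Ω(S)`. Nothing is
known about the quadratic symbols between the elements of `S`. `D` is constructed in three steps, such that
the Laplacian of the graph of non-residues on the primes of `D` and on any `U ⊆ S` is invertible over `𝔽₂`
(`Pool/Agent/NH4/AG`). (1) Primes `x`, of norm `5` modulo `8`, are non-residues of each other (so they form a
complete graph), and every `l ∈ S` is a non-residue for exactly one of them, `x_l`: the row of `x_l` forces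
the value of a vector in the kernel at `l ∈ U` to be the sum `V` of the values at the `x`, and the row of `l`
forces the value at `x_l` to be `V`, whatever the symbols between the elements of `S` are; as the number of
the `x` is even, `V = 0`. This needs that the norms of the elements of `S` are `1` modulo `8`. (2) For the
pairs `l, l̄` in `S` of norm `5` modulo `8` four new primes `y, ȳ, z, z̄` (`y` of norm `1` modulo `8`) are
added to `D`, which have the effect of changing the norm of `l` and `l̄` to `1` modulo `8`. (3) One more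
pair is added to `D` in infinitely many ways, and infinitely many pairs to `S`. The nonvanishing over
`ℚ(i)` of the twists (after Zhao) and the descent over `ℚ(i)` are in the starting files
(`Pool/Agent/Y697/MQ`), the passage to all the subfields `F` in `Pool/Agent/NH4/AF`.
-/

set_option autoImplicit false

namespace Pool.Agent.Results.MP_ae0bd0_nt.EachFieldInQuadraticTowers

open NumberField IsDedekindDomain

/-- `l` is a prime element of `ℤ[i]`, primary (`1` modulo `2 + 2i`), whose norm is a prime number. -/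
def Good (l : GaussianInt) : Prop :=
  Prime l ∧ (⟨2, 2⟩ : GaussianInt) ∣ l - 1 ∧ ∃ p : ℕ, p.Prime ∧ l.norm = p

/-- `Ω(R) = ℚ(i)(√l : l ∈ R)`, the subfield of `ℂ` generated by the square roots of `-1` and of the
elements of `R`. -/
noncomputable def Ω (R : Set GaussianInt) : Subfield ℂ :=
  Subfield.closure {z | z ^ 2 = -1 ∨ ∃ l ∈ R, z ^ 2 = (l : ℂ)}

section curve

variable {F : Type} [Field F] [NumberField F]

/-- `q_w`, the number of elements of the residue field `k_w`. -/
noncomputable def q (w : HeightOneSpectrum (𝓞 F)) : ℕ := Ideal.absNorm w.asIdeal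

/-- `#E_D(k_w)` with the point at infinity, for `E_D : y² = x³ + D² x`. -/
noncomputable def numPoints (D : ℕ) (w : HeightOneSpectrum (𝓞 F)) : ℕ :=
  Nat.card {P : (𝓞 F ⧸ w.asIdeal) × (𝓞 F ⧸ w.asIdeal) // P.2 ^ 2 = P.1 ^ 3 + (D : 𝓞 F ⧸ w.asIdeal) ^ 2 * P.1} + 1

/-- The Euler factor `(1 - a_w q_w^{-s} + q_w^{1-2s})⁻¹` of `E_D`, `a_w = q_w + 1 - #E_D(k_w)`. -/
noncomputable def factor (D : ℕ) (s : ℂ) (w : HeightOneSpectrum (𝓞 F)) : ℂ :=
  (1 - ((q w : ℂ) + 1 - numPoints D w) * (q w : ℂ) ^ (-s) + (q w : ℂ) ^ (1 - 2 * s))⁻¹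

variable (F)

/-- The curve `E_D : y² = x³ + D² x` over `F`. -/
noncomputable def curve (D : ℕ) : WeierstrassCurve.Affine F :=
  WeierstrassCurve.toAffine { a₁ := 0, a₂ := 0, a₃ := 0, a₄ := (D : F) ^ 2, a₆ := 0 }

open Classical in
/-- The rank of the group of `F`-rational points. -/
noncomputable def rank (D : ℕ) : ℕ := Module.finrank ℤ (curve F D).Point

/-- The group `E_D(F)` is finite, the Euler product of `E_D` over all places of `F` which do not divide
`2 D` has an entire continuation `L` with `L(1) ≠ 0`, and the order of `L` at `1` is the rank. -/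
def RankZero (D : ℕ) : Prop :=
  Finite (curve F D).Point ∧ ∃ L : ℂ → ℂ, Differentiable ℂ L ∧
    (∀ s : ℂ, 3 / 2 < s.re → HasProd (fun w : {w : HeightOneSpectrum (𝓞 F) //
      ((2 * D : ℕ) : 𝓞 F) ∉ w.asIdeal} => factor D s w.1) (L s)) ∧
    L 1 ≠ 0 ∧ analyticOrderAt L 1 = rank F D

end curve

section proof

open Y697.MQ (OP)

theorem rankZero_of {F : Type} [Field F] [NumberField F] {D : ℕ} (h : NH4.AF.RZ F (D : ℤ)) :
    RankZero F D := by
  classical
  obtain ⟨h1, L, hL, hL0, hprod⟩ := h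
  have hE : curve F D = (W307.RS.ShK (((D : ℤ) : F) ^ 2) (0 : F)).toAffine := by
    unfold curve W307.RS.ShK
    push_cast
    rfl
  have hfin : Finite (curve F D).Point := by
    rw [hE]
    exact h1 (Classical.decEq F)
  refine ⟨hfin, L, hL, fun s hs => ?_, hL0, ?_⟩
  · have h2 := hprod s hs
    have h3 : (fun w : HeightOneSpectrum (𝓞 F) =>
        if ((2 * (D : ℤ) : ℤ) : 𝓞 F) ∈ w.asIdeal then (1 : ℂ) else
          Y697.MQ.eulerA (((D : ℤ) : 𝓞 F) ^ 2) s w) =
        Set.mulIndicator {w : HeightOneSpectrum (𝓞 F) | ((2 * D : ℕ) : 𝓞 F) ∉ w.asIdeal}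
          (factor D s) := by
      funext w
      have e : ((2 * (D : ℤ) : ℤ) : 𝓞 F) = ((2 * D : ℕ) : 𝓞 F) := by push_cast; rfl
      rw [e]
      by_cases h4 : ((2 * D : ℕ) : 𝓞 F) ∈ w.asIdeal
      · rw [if_pos h4, Set.mulIndicator_of_notMem (not_not_intro h4)]
      · rw [if_neg h4, Set.mulIndicator_of_mem h4]
        unfold Y697.MQ.eulerA factor numPoints q
        have e2 : Ideal.Quotient.mk w.asIdeal (((D : ℤ) : 𝓞 F) ^ 2) =
            (D : 𝓞 F ⧸ w.asIdeal) ^ 2 := by
          rw [map_pow, map_intCast]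
          push_cast
          rfl
        rw [e2]
        push_cast
        rw [add_sub_add_right_eq_sub]
    have h5 : HasProd (Set.mulIndicator {w : HeightOneSpectrum (𝓞 F) |
        ((2 * D : ℕ) : 𝓞 F) ∉ w.asIdeal} (factor D s)) (L s) := by
      rw [← h3]
      convert h2
    exact (hasProd_subtype_iff_mulIndicator).2 h5
  · rw [AnalyticAt.analyticOrderAt_eq_zero (hL.analyticAt 1) |>.2 hL0]
    have h2 : Module.rank ℤ (curve F D).Point = 0 := by
      rw [rank_eq_zero_iff]
      intro x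
      exact ⟨(Nat.card (curve F D).Point : ℤ),
        by exact_mod_cast Nat.card_pos.ne', by rw [natCast_zsmul]; exact card_nsmul_eq_zero'⟩
    have h3 : rank F D = 0 := by
      unfold rank
      rw [Module.finrank]
      simp only [h2, map_zero]
    rw [h3]
    rfl

theorem Ω_mono {R S : Set GaussianInt} (h : R ⊆ S) : Ω R ≤ Ω S := NH4.AF.Om_mono h

/-- a prime element of prime norm is different from its conjugate -/
theorem star_ne {l : GaussianInt} {p : ℕ} (hp : p.Prime) (h : l.norm = p) : star l ≠ l := by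
  intro hs
  have him : l.im = 0 := by
    have := congrArg Zsqrtd.im hs
    rw [Zsqrtd.im_star] at this
    omega
  have h2 : l.re ^ 2 = p := by
    rw [← h, Zsqrtd.norm_def, him]
    ring
  have h3 : l.re.natAbs ^ 2 = p := by
    have : ((l.re.natAbs : ℤ)) ^ 2 = p := by rw [Int.natAbs_sq, h2]
    exact_mod_cast this
  rw [← h3] at hp
  exact Nat.Prime.not_prime_pow (le_refl 2) hp

theorem good_iff (l : GaussianInt) : Good l ↔ OP l ∧ star l ≠ l := by
  constructor
  · rintro ⟨h1, h2, p, h3, h4⟩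
    exact ⟨⟨h1, (Y697.MQ.Pr_iff l).2 h2⟩, star_ne h3 h4⟩
  · rintro ⟨h1, h2⟩
    obtain ⟨p, h3, -, h4⟩ := NH4.AG.norm_prime h1 h2
    refine ⟨h1.pr, (Y697.MQ.Pr_iff l).1 h1.pm, p, h3, ?_⟩
    rw [← h4, Int.natCast_natAbs, abs_of_nonneg (GaussianInt.norm_nonneg _)]

/-- a number field in `Ω` is in a field generated by the square roots of a finite set of primes, stable
under the conjugation -/
theorem exists_S {F₀ : Type} [Field F₀] [NumberField F₀] (φ₀ : F₀ →+* ℂ)
    (hφ₀ : ∀ x, φ₀ x ∈ Ω {l | Good l}) :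
    ∃ S : Finset GaussianInt, (∀ l ∈ S, OP l ∧ star l ∈ S ∧ star l ≠ l) ∧
      ∀ x, φ₀ x ∈ Ω (S : Set GaussianInt) := by
  classical
  obtain ⟨T, hT, hφT⟩ := NH4.AF.exists_fin_field φ₀ hφ₀
  refine ⟨T ∪ T.image star, fun l hl => ?_, fun x => Ω_mono ?_ (hφT x)⟩
  · rcases Finset.mem_union.1 hl with h | h
    · obtain ⟨g1, g2⟩ := (good_iff l).1 (hT l h)
      exact ⟨g1, Finset.mem_union_right _ (Finset.mem_image_of_mem _ h), g2⟩
    · obtain ⟨m, hm, rfl⟩ := Finset.mem_image.1 h
      obtain ⟨g1, g2⟩ := (good_iff m).1 (hT m hm)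
      refine ⟨g1.star, ?_, ?_⟩
      · rw [star_star]
        exact Finset.mem_union_left _ hm
      · rw [star_star]
        exact g2.symm
  · intro l hl
    exact Finset.mem_coe.2 (Finset.mem_union_left _ hl)

/-- The fields in `Ω`. -/
theorem roots_mem {p : ℕ} (hp : p.Prime) (h4 : p % 4 = 1) :
    ∃ a b : ℤ, (p : ℤ) = a ^ 2 + b ^ 2 ∧ (2 : ℤ) ∣ b ∧ (4 : ℤ) ∣ a - 1 - b ∧
      ∀ x : ℂ, (x ^ 2 = (p : ℂ) ∨ x ^ 4 - 4 * (a : ℂ) * x ^ 2 - 4 * (b : ℂ) ^ 2 = 0) →
        x ∈ Ω {l | Good l} := by
  obtain ⟨l, hne, hop, hll, hn⟩ := NH4.AF.prime_data hp h4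
  have hpr := hop.pm
  have hnp : l.norm = p := by
    rw [← hn, Int.natCast_natAbs, abs_of_nonneg (GaussianInt.norm_nonneg _)]
  have hns : star l ≠ l := fun h => hne h.symm
  refine ⟨l.re, l.im, ?_, ?_, ?_, ?_⟩
  · rw [← hnp, Zsqrtd.norm_def]
    ring
  · unfold Y697.MQ.Pr at hpr
    omega
  · unfold Y697.MQ.Pr at hpr
    omega
  · intro x hx
    obtain ⟨z, hz⟩ := IsAlgClosed.exists_pow_nat_eq (l : ℂ) (n := 2) two_pos
    obtain ⟨w, hw⟩ := IsAlgClosed.exists_pow_nat_eq ((star l : GaussianInt) : ℂ) (n := 2) two_pos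
    have hzΩ : z ∈ Ω {l | Good l} :=
      Subfield.subset_closure (Or.inr ⟨l, (good_iff l).2 ⟨hop, hns⟩, hz⟩)
    have hwΩ : w ∈ Ω {l | Good l} :=
      Subfield.subset_closure (Or.inr ⟨star l, (good_iff _).2 ⟨hop.star, by
        rw [star_star]; exact hns.symm⟩, hw⟩)
    have hzw : (z * w) ^ 2 = (p : ℂ) := by
      rw [mul_pow, hz, hw, ← map_mul, hll, map_natCast]
    have hsum : z ^ 2 + w ^ 2 = 2 * (l.re : ℂ) := by
      rw [hz, hw, GaussianInt.toComplex_def, GaussianInt.toComplex_def, Zsqrtd.re_star,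
        Zsqrtd.im_star]
      push_cast
      ring
    have hpc : (p : ℂ) = (l.re : ℂ) ^ 2 + (l.im : ℂ) ^ 2 := by
      have h1 : (p : ℤ) = l.re ^ 2 + l.im ^ 2 := by
        rw [← hnp, Zsqrtd.norm_def]
        ring
      exact_mod_cast congrArg (fun m : ℤ => (m : ℂ)) h1
    have pm : ∀ u v : ℂ, v ∈ Ω {l | Good l} → u ^ 2 = v ^ 2 → u ∈ Ω {l | Good l} := by
      intro u v hv huv
      rcases sq_eq_sq_iff_eq_or_eq_neg.1 huv with h | h
      · rw [h]; exact hv
      · rw [h]; exact neg_mem hv
    rcases hx with hx | hx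
    · exact pm x (z * w) (mul_mem hzΩ hwΩ) (by rw [hx, hzw])
    · have h5 : (x ^ 2 - 2 * (l.re : ℂ)) ^ 2 = (2 * (z * w)) ^ 2 := by
        rw [mul_pow 2 (z * w), hzw, hpc]
        linear_combination hx
      rcases sq_eq_sq_iff_eq_or_eq_neg.1 h5 with h | h
      · exact pm x (z + w) (add_mem hzΩ hwΩ) (by linear_combination h - hsum)
      · exact pm x (z - w) (sub_mem hzΩ hwΩ) (by linear_combination h - hsum)

end proof

/-- **Main theorem.** (1) For every prime number `p ≡ 1` modulo `4` the field `Ω` generated by `i` and by the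
square roots of all good primes contains the roots of `x² - p` and, for `p = a² + b²`, `b` even,
`a ≡ 1 + b` modulo `4`, the roots of `x⁴ - 4 a x² - 4 b²`. (2) For every number field `F₀` in `Ω` there are an
infinite set `R` of good primes, stable under the complex conjugation, with `F₀ ⊆ Ω(R)`, and infinitely
many squarefree `D`, products of primes `≡ 1` modulo `4`, such that the rank conjecture holds, with order
and rank zero, for `E_D : y² = x³ + D² x` over EVERY number field `F` in `Ω(R)`. -/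
theorem result :
    (∀ p : ℕ, p.Prime → p % 4 = 1 → ∃ a b : ℤ, (p : ℤ) = a ^ 2 + b ^ 2 ∧ (2 : ℤ) ∣ b ∧
      (4 : ℤ) ∣ a - 1 - b ∧
      ∀ x : ℂ, (x ^ 2 = (p : ℂ) ∨ x ^ 4 - 4 * (a : ℂ) * x ^ 2 - 4 * (b : ℂ) ^ 2 = 0) →
        x ∈ Ω {l | Good l}) ∧
    ∀ (F₀ : Type) [Field F₀] [NumberField F₀] (φ₀ : F₀ →+* ℂ), (∀ x, φ₀ x ∈ Ω {l | Good l}) →
      ∃ R : Set GaussianInt, R.Infinite ∧ (∀ l ∈ R, Good l ∧ star l ∈ R ∧ star l ≠ l) ∧
        (∀ x, φ₀ x ∈ Ω R) ∧
        {D : ℕ | Squarefree D ∧ (∀ p : ℕ, p.Prime → p ∣ D → p % 4 = 1) ∧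
          ∀ (F : Type) [Field F] [NumberField F] (φ : F →+* ℂ),
            (∀ x, φ x ∈ Ω R) → RankZero F D}.Infinite := by
  refine ⟨fun p hp h4 => roots_mem hp h4, fun F₀ _ _ φ₀ hφ₀ => ?_⟩
  obtain ⟨S, hS, hφS⟩ := exists_S φ₀ hφ₀
  obtain ⟨R, h1, h2, h3, h4⟩ := NH4.AG.final hS
  refine ⟨R, h2, fun l hl => ?_, fun x => Ω_mono (fun l hl => h1 l hl) (hφS x), h4.mono ?_⟩
  · obtain ⟨g1, g2, g3⟩ := h3 l hl
    exact ⟨(good_iff l).2 ⟨g1, g3⟩, g2, g3⟩
  · rintro D ⟨g1, g2, g3⟩
    exact ⟨g1, g2, fun F _ _ φ hφ => rankZero_of (g3 F φ hφ)⟩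

end Pool.Agent.Results.MP_ae0bd0_nt.EachFieldInQuadraticTowers
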