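import Pool.Agent.NH4.XH.Seq
import Pool.Agent.NH4.XF.JL

/-!
# The `2 ^ ∞`-Selmer groups of the twists of `X_0(15)`: exact proportions in the natural order

`E_D : y² = x³ - 12987 D² x - 263466 D³` is the twist by `D` of the non-CM curve `E_1 = X_0(15)`, which has full
rational `2`-torsion and cyclic isogenies of degree four. Let `g_1, …, g_k` (`k ≥ 1`) be ANY different squarefree
positive numbers such that `3` and `5` split in `ℚ(√g_t)` (that is, `g_t ≡ 1 mod 3`, `g_t ≡ 1, 4 mod 5`; also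
`g_t = 1`), and let `M` run through the squarefree numbers `M < 0` such that `3` splits and `5` is inert in `ℚ(√M)`
(that is, `M ≡ 1 mod 3`, `M ≡ 2, 3 mod 5`), in the order of `|M|` (that is, of the heights of the `E_{M g_t}`).
There is no condition at `2`, and none on the prime factors.

* The sequence `0 → E(ℚ) ⊗ ℚ₂/ℤ₂ → Sel_{2^∞}(E) → Ш(E)[2^∞] → 0` of `E = E_{M g_t}` is zero if and only if the class
  group of `ℚ(√(M g_t))` has no element of order four.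
* The `k` events are independent, each has the probability `η = ∏ (1 - 2^(-i)) = 0.2887…`: for every
  subset `T` the sequences are zero exactly for the `t ∈ T` for the proportion
  `η ^ |T| (1 - η) ^ (k - |T|)` of the `M`. These are `5 / 64 η ^ |T| (1 - η) ^ (k - |T|)` of ALL the squarefree
  integers.
-/

set_option autoImplicit false

open Filter Topology

namespace Pool.Agent.Results.MP_a3f657_nt.PositiveProportionX15

/-- coefficients of the twist `E_D : y² = x³ + A D x + B D` of `X_0(15)` -/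
def A (D : ℤ) : ℤ := -12987 * D ^ 2

/-- coefficients of the twist `E_D : y² = x³ + A D x + B D` of `X_0(15)` -/
def B (D : ℤ) : ℤ := -263466 * D ^ 3

/-- the curve `E_D` over `ℚ` -/
def E (D : ℤ) : WeierstrassCurve ℚ :=
  { a₁ := 0, a₂ := 0, a₃ := 0, a₄ := (A D : ℚ), a₆ := (B D : ℚ) }

/-- all the terms of the sequence `0 → E_D(ℚ) ⊗ ℚ₂/ℤ₂ → Sel_{2 ^ ∞}(E_D) → Ш(E_D)[2 ^ ∞] → 0` are
zero -/
def ZeroSeq (D : ℤ) : Prop :=
  (∀ x : TensorProduct ℤ (E D).toAffine.Point Pool.Agent.TH841.SH.D.Pruf, x = 0) ∧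
    (∀ x : Pool.Agent.Y17.X.SI.SelInf (E D), x = 0) ∧
    ∀ (k : ℕ) (x : Pool.Agent.TH841.SH.D.Sha (E D)), (2 ^ k : ℕ) • x = 0 → x = 0

/-- The class group of the quadratic field `ℚ(√D)` has no element of order four. -/
def NoFour (D : ℤ) : Prop := ∀ (K : Type) [Field K] [NumberField K], Module.finrank ℚ K = 2 →
  (∃ a : K, a ^ 2 = (D : K)) →
  ∀ c : ClassGroup (NumberField.RingOfIntegers K), c ^ 4 = 1 → c ^ 2 = 1

/-- the class of the numbers `M` -/
def InClass (M : ℤ) : Prop := Squarefree M ∧ M < 0 ∧ M % 3 = 1 ∧ (M % 5 = 2 ∨ M % 5 = 3)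

/-- the numbers `g_t` -/
def IsShift (g : ℤ) : Prop := Squarefree g ∧ 0 < g ∧ g % 3 = 1 ∧ (g % 5 = 1 ∨ g % 5 = 4)

open Classical in
/-- the number of the squarefree integers `M`, `|M| ≤ X`, with the property `P` -/
noncomputable def count (P : ℤ → Prop) (X : ℕ) : ℝ :=
  (((Finset.Icc (-(X : ℤ)) X).filter fun M : ℤ => Squarefree M ∧ P M).card : ℝ)

/-- the constant `η` -/
noncomputable def eta : ℝ := ∏' i : ℕ, (1 - (1 / 2 : ℝ) ^ (i + 1))

section proof

open Pool.Agent.NH4 Pool.Agent.NH4.XH Pool.Agent.XV.T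
open Pool.Agent.NH4.XF (cz cz_congr' patterns rz_scale)

theorem zero_iff {D : ℤ} (hD : D ≠ 0) : ZeroSeq D ↔ RZ D :=
  (Iff.rfl : ZeroSeq D ↔ Pool.Agent.Y17.X.SI.ZeroSeq
    (Pool.Agent.Z702.sh (-12987 * D ^ 2) (-263466 * D ^ 3))).trans (zeroSeq_15 hD)

theorem sel_iff {D : ℤ} (hD : D ≠ 0) :
    (∀ x : Pool.Agent.Y17.X.SI.SelInf (E D), x = 0) ↔ RZ D := selInf_15 hD

theorem noFour_scale {D k : ℤ} (hk : k ≠ 0) : NoFour (D * k ^ 2) ↔ NoFour D := by
  unfold NoFour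
  refine forall_congr' fun K => forall_congr' fun _ => forall_congr' fun _ => forall_congr' fun _ =>
    imp_congr ?_ Iff.rfl
  have hkK : (k : K) ≠ 0 := by exact_mod_cast hk
  constructor
  · rintro ⟨a, ha⟩
    refine ⟨a / k, ?_⟩
    rw [div_pow, ha]
    push_cast
    field_simp
  · rintro ⟨a, ha⟩
    refine ⟨a * k, ?_⟩
    rw [mul_pow, ha]
    push_cast
    rfl

theorem isA_of {g : ℤ} (h : IsShift g) : IsA g :=
  ⟨g, 1, ⟨h.2.1, h.1, h.2.2⟩, one_ne_zero, by ring⟩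

theorem db_of_class {M : ℤ} (h : InClass M) : DB M := ⟨h.2.1, h.1, h.2.2⟩

/-- the criterion for one twist -/
theorem one {M g : ℤ} (hM : InClass M) (hg : IsShift g) :
    (ZeroSeq (M * g) ↔ ∀ x : Pool.Agent.Y17.X.SI.SelInf (E (M * g)), x = 0) ∧
      (ZeroSeq (M * g) ↔ NoFour (M * g)) := by
  have h0 : M * g ≠ 0 := mul_ne_zero hM.2.1.ne hg.2.1.ne'
  obtain ⟨D, k, h1, -, h2, h3⟩ := (upB_self (db_of_class hM)).mul_A (isA_of hg)
  rw [zero_iff h0, sel_iff h0]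
  refine ⟨Iff.rfl, ?_⟩
  rw [h3, noFour_scale h2, rz_scale h1.1.ne h2, rz_noFour h1]
  exact Iff.rfl

theorem not_square {g g' : ℤ} (h : IsShift g) (h' : IsShift g') (hne : g ≠ g') :
    ¬ IsSquare (g * g') := by
  rintro ⟨r, hr⟩
  apply hne
  have hr0 : r ≠ 0 := by
    rintro rfl
    have := mul_pos h.2.1 h'.2.1
    omega
  refine PF.sqf_unique h.1 h'.1 (k := g') (k' := r) h'.2.1.ne' hr0 ?_
  linear_combination g' * hr

theorem count_eq (P : ℤ → Prop) (X : ℕ) : count P X = cz P X := rfl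

theorem law (h : S_HOUT) {k : ℕ} {g : Fin (k + 1) → ℤ} (hg : ∀ t, IsShift (g t))
    (hi : Function.Injective g) (T : Finset (Fin (k + 1))) (hT : T.Nonempty) :
    Tendsto (fun X : ℕ => cz (fun M => InClass M ∧ ∀ t ∈ T, ZeroSeq (M * g t)) X / cz InClass X) atTop
        (𝓝 (eta ^ T.card)) ∧
      Tendsto (fun X : ℕ => cz (fun M => InClass M ∧ ∀ t ∈ T, ZeroSeq (M * g t)) X /
        cz (fun _ => True) X) atTop (𝓝 (5 / 64 * eta ^ T.card)) := by
  have : Nonempty T := hT.to_subtype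
  have h1 := joint_zero XG.f_XGDEN h (ι := T) (g := fun t => g t.1) (fun t => isA_of (hg t.1))
    (fun t t' hne => not_square (hg t.1) (hg t'.1) fun e => hne (Subtype.ext (hi e)))
  rw [Fintype.card_coe] at h1
  have e1 : ∀ X : ℕ, cz (fun M => (M < 0 ∧ M % 3 = 1 ∧ (M % 5 = 2 ∨ M % 5 = 3)) ∧
      ∀ t : T, RZ (M * g t.1)) X = cz (fun M => InClass M ∧ ∀ t ∈ T, ZeroSeq (M * g t)) X := by
    refine fun X => cz_congr' (fun M hM => ?_) X
    constructor
    · rintro ⟨h2, h3⟩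
      have hc : InClass M := ⟨hM, h2⟩
      exact ⟨hc, fun t ht => (zero_iff (mul_ne_zero h2.1.ne (hg t).2.1.ne')).2 (h3 ⟨t, ht⟩)⟩
    · rintro ⟨h2, h3⟩
      exact ⟨h2.2, fun t => (zero_iff (mul_ne_zero h2.2.1.ne (hg t.1).2.1.ne')).1 (h3 t.1 t.2)⟩
  have e2 : ∀ X : ℕ, cz (fun M => M < 0 ∧ M % 3 = 1 ∧ (M % 5 = 2 ∨ M % 5 = 3)) X = cz InClass X :=
    fun X => cz_congr' (fun M hM => ⟨fun h2 => ⟨hM, h2⟩, fun h2 => h2.2⟩) X
  simp only [e1, e2] at h1
  exact h1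

end proof

open Pool.Agent.NH4.XF (cz cz_congr' patterns) in
/-- **Main theorem.** -/
theorem result :
    (∀ M g : ℤ, InClass M → IsShift g →
      (ZeroSeq (M * g) ↔ ∀ x : Pool.Agent.Y17.X.SI.SelInf (E (M * g)), x = 0) ∧
      (ZeroSeq (M * g) ↔ NoFour (M * g))) ∧
    (∀ (k : ℕ) (g : Fin (k + 1) → ℤ), (∀ t, IsShift (g t)) → Function.Injective g →
      ∀ T : Finset (Fin (k + 1)),
      Tendsto (fun X : ℕ => count (fun M => InClass M ∧ ∀ t, ZeroSeq (M * g t) ↔ t ∈ T) X /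
        count InClass X) atTop (𝓝 (eta ^ T.card * (1 - eta) ^ (k + 1 - T.card))) ∧
      Tendsto (fun X : ℕ => count (fun M => InClass M ∧ ∀ t, ZeroSeq (M * g t) ↔ t ∈ T) X /
        count (fun _ => True) X) atTop
        (𝓝 (5 / 64 * (eta ^ T.card * (1 - eta) ^ (k + 1 - T.card))))) ∧
    0.2887 < eta ∧ eta < 0.2888 := by
  have h : Pool.Agent.NH4.XH.S_HOUT := Pool.Agent.NH4.XH.f_HOUT
  refine ⟨fun M g hM hg => one hM hg, fun k g hg hi T => ?_, Pool.Agent.NH5.PR.t_ETA.2.2.2.1,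
    Pool.Agent.NH5.PR.t_ETA.2.2.2.2⟩
  have hx : eta ≠ 0 := by
    have : (0.2887 : ℝ) < eta := Pool.Agent.NH5.PR.t_ETA.2.2.2.1
    linarith
  have h1 := patterns (ι := Fin (k + 1)) (P := fun t M => ZeroSeq (M * g t)) (Cl := InClass) hx
    (fun T hT => law h hg hi T hT) T Tᶜ disjoint_compl_right
  rw [Finset.card_compl, Fintype.card_fin] at h1
  have e1 : ∀ X : ℕ, cz (fun M => InClass M ∧ (∀ t ∈ T, ZeroSeq (M * g t)) ∧
      ∀ t ∈ Tᶜ, ¬ ZeroSeq (M * g t)) X = cz (fun M => InClass M ∧ ∀ t, ZeroSeq (M * g t) ↔ t ∈ T) X := by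
    refine fun X => cz_congr' (fun M _ => and_congr_right fun _ => ?_) X
    constructor
    · rintro ⟨h2, h3⟩ t
      by_cases ht : t ∈ T
      · exact iff_of_true (h2 t ht) ht
      · exact iff_of_false (h3 t (Finset.mem_compl.2 ht)) ht
    · intro h2
      exact ⟨fun t ht => (h2 t).2 ht, fun t ht h3 => Finset.mem_compl.1 ht ((h2 t).1 h3)⟩
  simp only [e1] at h1
  exact h1

end Pool.Agent.Results.MP_a3f657_nt.PositiveProportionX15
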